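import Mathlib
import Pool.Agent.Helper29.PA.Defs
import Pool.Agent.ZT.Graph
import Pool.Agent.ZT.StarMain
import Pool.Agent.ZT.StarUnit

/-!
# The fibered Farrell-Jones conjecture in A-theory and permutations of bounded displacement

The class of the groups which satisfy the conjecture (with finite wreath products) contains the
finite groups and `ℤ`, is closed under isomorphism, subgroups, products and free products of two
groups, overgroups of finite index and directed colimits, and contains a group `G` if it contains
a group `Q` and the preimages of the cyclic subgroups of `Q` under a homomorphism `G → Q`.
`result` shows that each such class `C` contains every group `G` which acts faithfully on a set `S`
with a function `ρ : S → ℤ` such that each element of `G` changes `ρ` by a bounded amount and each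
orbit contains at most `k` points of each fibre of `ρ`.

Special cases, proved in the imported files: the group of the permutations `g` of a set such that
`g x = T ^ n x` with bounded `n`, for a permutation `T` (`ZT.mem_BF`); the topological full groups
of all homeomorphisms of compact spaces (`ZT.mem_topFull_of_BF`); the groups acting on the vertices
of a graph, each element moving the vertices by a bounded distance, if each component has a point
such that the spheres around it have at most `k` points, or if all degrees are at most `2`
(`ZT.mem_of_spheres`, `ZT.mem_of_degree_two`); the groups of permutations moving each point by a
word of bounded length in two involutions (`ZT.mem_of_involutions`).

Proof. By embedding `S` into lines it suffices to consider the permutations of bounded displacement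
along a permutation `T`; these extend to the space `X` of the ultrafilters, where `T` is a
homeomorphism. The periodic points are split off by clopen invariant sets on which the group is
locally finite. So it suffices to consider the group `FG` of the permutations of `X × F` of the form
`(x, h) ↦ (x, c (h x) h)` with `c : X → F` locally constant, where `F` is a free group (here `ℤ`)
acting on a compact space `X`. Let `κ` be a locally constant function on `X`. The type of a point of
`X × F` consists of the values of `κ` at the point and its neighbours. A state is a set of tokens,
each the graph of a bijection of the set of points of one type and a set of particles. A step moves
all particles with a given value of `κ` after the step by a generator of `F`. The group `D κ`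
consists of the pairs of a permutation `q` and of the product, in the right-angled Artin group of
the letters (sets of pairs of positions and particles, commuting if the sets of particles are
disjoint), of the letters of a sequence of steps from the identity to `q`. If `κ'` is finer than
`κ`, replace each letter by the product of its pieces; this is a homomorphism from `D κ` to `D κ'`.
The group `FG` is the colimit: a product of steps which gives the identity is over a fine `κ'` a
product of closed paths of sets of particles in a tree, hence trivial. Finally `D κ` depends only on
the set of types, since restricting the states to a union of orbits which contains all types is
injective (a cancelling pair of letters after restriction is a cancelling pair) and surjective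
(steps can be lifted). So `X` can be replaced by finitely many eventually periodic orbits, and `D κ`
is a subgroup of the semidirect product of a right-angled Artin group with an extension of a locally
finite group by a virtually abelian group.

The same proof gives the groups `FG` for free groups `F` of any rank if each nonempty clopen set has
positive measure for some invariant probability measure (`ZT.mem_star`, `ZT.star_of_measures`).

The theorem and the periodic points and ultrafilters are due to helper54, the groups `D κ`, their
transition maps, the theorems on restriction and the colimit to helper46, the kernel and the
surjectivity to helper41, the right-angled Artin groups to helper30, the windows and the periodic
orbits to helper21, the groups of finite sets and the flows to helper6, the form with a function `ρ`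
and the graphs to helper78, the means to helper29, the trees in null sets to helper3.
-/

set_option autoImplicit false

namespace Pool.Agent.Results.MP_59dd5b_al.BoundedDisplacement

open Pool.Agent.Helper29.PA

theorem result (C : ∀ (G : Type) [Group G], Prop) (hC : ExtClass C) (G : Type) [Group G]
    (S : Type) [MulAction G S] [FaithfulSMul G S] (ρ : S → ℤ) (k : ℕ)
    (hk : ∀ (s : S) (n : ℤ), {t ∈ MulAction.orbit G s | ρ t = n}.encard ≤ k)
    (hG : ∀ g : G, ∃ N : ℕ, ∀ s : S, |ρ (g • s) - ρ s| ≤ N) : C G :=
  Pool.Agent.ZT.mem_of_rank hC G ρ k hk hG

end Pool.Agent.Results.MP_59dd5b_al.BoundedDisplacement
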