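import Pool.Agent.Helper26.GT.Main
import Pool.Agent.Helper37.GF.Tri
import Pool.Agent.Helper3.FJ.Mat3
import Pool.Agent.Helper50.PT.Laur

/-!
# Groups acting on simply connected complexes of dimension two with nonpositive curvature

Problem MP_59dd5b_al. The class of the groups which satisfy the fibered Farrell-Jones conjecture in
A-theory (with finite wreath products) has the closure properties in `ExtClass`: it contains the
finite groups and `ℤ`, is closed under isomorphism, subgroups, products and free products of two
groups, overgroups of finite index and directed colimits, and contains a group `G` if it contains a
group `Q` and the preimages of the cyclic subgroups of `Q` under a homomorphism `G → Q`. It also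
contains the groups which act by isometries, cocompactly and with finite stabilizers on simply
connected piecewise Euclidean complexes of dimension two with the link condition (`CatClass`),
since these complexes are CAT(0) spaces. `result` is about each such class `C`.

Definitions.
* `Cpx V`: a simplicial complex of dimension at most two with the vertices `V`, given by its edges
  `adj u v` and triangles `tri u v w`.
* `X.Metric ℓ`: the edges have lengths `ℓ u v > 0` such that the triangles are Euclidean triangles.
* `X.LinkCond ℓ`: each circuit in the link of a vertex has length at least `2π` (the length of an
  edge of the link is the angle of the triangle).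
* `X.SimplyConn`: `X` is not empty, connected, and each 1-cocycle with values in a group is a
  coboundary.
* `X.Acts G`: `G` acts by automorphisms of the complex.
* `Smp X`: the simplices of `X` (vertices, edges and triangles) as sets of vertices.

There is no condition on the number of shapes of the triangles, and the action need not be
cocompact or without inversions.

Examples.
* Equilateral triangles and links of girth at least six (`Pool.Agent.Helper37.GF.triClass`), as in
  the affine buildings of `SL₃`. This gives `SL_n` and `GL_n`, `n ≤ 3`, of polynomial rings over
  domains (`Pool.Agent.Helper3.FJ.SL_poly`, `Pool.Agent.Helper3.FJ.GL_poly`).
* Products of two trees (`Pool.Agent.Helper50.PT.prod_trees`). This gives `SL₂` and `GL₂` of rings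
  of Laurent polynomials over domains (`Pool.Agent.Helper50.PT.SL_laurent`,
  `Pool.Agent.Helper50.PT.GL_laurent`).

Proof. Preimages of cyclic subgroups and directed colimits reduce the assertion to cocompact
actions of a group `G` with a homomorphism to `ℤ` which is injective on the stabilizers. Let `H` be
a subgroup of large finite index and `R` the subgroup which is generated by the stabilizers in `H`.
The quotient `U` of the (second barycentric subdivision of the) complex by `R` is simply connected
and satisfies the link condition, because the elements of `R` which fix a vertex move the points of
the link by large distances or fix them. So `H ⧸ R`, which acts freely on `U`, is in `C`, and `U`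
has unique geodesics (theorem of Cartan and Hadamard). The farthest vertices of a finite subcomplex
of `U` from a base vertex give a free edge with a condition on the edges fixed by elements of `R`.
Hence the preimages in the complex of the finite subcomplexes of `U` give a description of `R` by
amalgamated products, and `R` is in `C`. Preimages of cyclic subgroups under `H → (H ⧸ R) × ℤ` have
a subgroup of finite index in `R` or act freely, so `H` is in `C`.
-/

set_option autoImplicit false

namespace Pool.Agent.Results.MP_59dd5b_al.CatComplexes

open Pool.Agent.Helper29.BA Pool.Agent.Helper29.PA Pool.Agent.Helper3.FJ Pool.Agent.Helper13.GT
  Pool.Agent.Helper26.GT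

/-- Let `C` be a class of groups with the closure properties in `ExtClass` and `CatClass`. Let the
group `G` act by isometries on a simply connected piecewise Euclidean complex `X` of dimension two
which satisfies the link condition. Suppose that for each finite set `K` of simplices there is a
homomorphism from `G` to a group in `C` which is injective on the stabilizers of the simplices in
`K`. Then `G` is in `C`. -/
theorem result {C : ∀ (G : Type) [Group G], Prop} (hC : CatClass C) (hE : ExtClass C) (V : Type)
    (X : Cpx V) (ℓ : V → V → ℝ) (G : Type) [Group G] [MulAction G V] (hM : X.Metric ℓ)
    (hL : X.LinkCond ℓ) (hX : X.SimplyConn) (hA : X.Acts G)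
    (hI : ∀ (g : G) u v, ℓ (g • u) (g • v) = ℓ u v)
    (hQ : ∀ K : Finset (Smp X), ∃ (Q : Type) (_ : Group Q) (f : G →* Q), C Q ∧
      ∀ a ∈ K, ∀ g : G, (∀ x ∈ a.s, g • x ∈ a.s) → f g = 1 → g = 1) : C G :=
  mainGT hC hE hM hL hX hA hI hQ

end Pool.Agent.Results.MP_59dd5b_al.CatComplexes
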