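import Mathlib
import Pool.Agent.Helper29.PA.Defs
import Pool.Agent.ZT.ParadZ

/-!
# The fibered Farrell-Jones conjecture in A-theory and topological full groups

The class of the groups which satisfy the conjecture (with finite wreath products) contains the
finite groups and `ℤ`, is closed under isomorphism, subgroups, products and free products of two
groups, overgroups of finite index and directed colimits, and contains a group `G` if it contains
a group `Q` and the preimages of the cyclic subgroups of `Q` under a homomorphism `G → Q`.
`ExtClass C` says that `C` is a class with these properties.

Let `Γ` be the directed colimit of groups `G i` which have free subgroups of finite index, and let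
`Γ` act by homeomorphisms on a compact space `X`. Let `AG Γ X n` be the full group of the action of
`Γ × Perm (Fin n)` on `X × Fin n`, that is the group of the permutations `q` of
`(X × Fin n) × (Γ × Perm (Fin n))` of the form `q (x, g) = (x, c (g x) g)` with a locally constant
function `c` on `X × Fin n`. For `n = 1` this is the topological full group of the groupoid of the
action, for `n > 1` the one of its product with the groupoid of all pairs of `n` points. `result`
shows that all these groups are in each such class `C` unless there is an obvious obstruction: a
nonempty clopen set `U` for which there is no finitely additive `Γ`-invariant function `m` on the
clopen sets with values in `[0, ∞]` and `0 < m U < ∞`, or, equivalently, an image of Thompson's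
group `T`, or, equivalently, a copy of Thompson's group `F`, in one of these groups.

Corollaries, proved in the imported files: if the action is topologically free, `C` contains the
topological full group of the action, the homeomorphisms `h` of `X` with `h x = c x x`, `c`
locally constant (`ZT.mem_TG`); the condition (2) holds if there is an invariant finite measure
which is positive on the nonempty open sets (`ZT.noParG_of_measure`), if `Γ` is amenable and the
action is minimal (`ZT.noParG_of_minimal`), or if no nonempty clopen set is paradoxical
(`ZT.noParG_of_not_paradox`); it is not needed for (1) if the groups `G i` are virtually cyclic
(`ZT.mem_GG_colimit_virtZ`). Tarski's theorem for clopen pieces and an arbitrary group acting on a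
compact space (`ZT.exists_measureC`): either (2) holds for `U`, or `2 k` copies of `U` embed
piecewise in `k` copies of `U` for some `k > 0`.

Proof of (2) => (1). The condition (2) passes to `X × Fin n`. A subgroup of finite index of `Γ` and
a finite set of cosets `Y` give an embedding of the groupoid of `Γ` and `X` in the one of a free
group acting on `X × Y` (`ZT.Infl`); the cocycles with values in `Γ` lift to the groups `G i`
(`ZT.mem_GG_colimit`). This leaves the free groups `F` of finite rank. Let `κ` be a locally constant
function on `X`. The type of a point of `X × F` consists of the values of `κ` at the point and at
its neighbours. A state is a set of tokens, each the graph of a bijection of the set of the points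
of one type and a set of particles. A step moves all particles with a given value of `κ` after the
step by a generator of `F`. The group `D κ` consists of the pairs of a permutation `q` and of the
product, in the right-angled Artin group of the letters (sets of pairs of positions and particles,
commuting if the sets of particles are disjoint), of the letters of a sequence of steps from the
identity to `q`. The full group is the directed colimit of the groups `D κ`: a product of steps
which gives the identity is over a fine `κ` a product of closed paths of sets of particles in a
tree, hence trivial. The group `D κ` depends only on the set of the types, since restricting the
states to a union of orbits which contains all types is injective and surjective. The space `X` can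
be replaced by a tower of sets: the types of finite positive measure, with multiplicities which
satisfy the flow equations, give a finite set with bijections between some of its subsets, and where
a bijection is missing one attaches a copy of a branch of the tree, labelled like the branch of a
point of the previous set which is known to exist since the measure is infinite there. At each step
the group of local cocycles grows only by a locally finite group and by finitely supported functions
with values in `F`.

Proof of (1) => (4) => (3) => (2). The classes of the groups without a noncommutative solution of
the two relations of `F`, and without a nontrivial solution of the six relations of `T`, have the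
properties of `C`. If there is no `m` for `U` then, by the theorem of Goodearl and Handelman on
states on preordered groups, `2 k` copies of `U` embed piecewise in `k` copies of `U`; this gives a
clopen set with two disjoint copies in itself, on which `T` acts.

The theorem for free groups is due to helper46 (the groups `D κ`, their transition maps, the
theorems on restriction, the colimit and the tower of sets), with parts by helper41, helper30,
helper21, helper54, helper78, helper29, helper3 and helper6; the embeddings, the virtually free
groups and their colimits are due to helper6, Tarski's theorem for clopen pieces and the part on
Thompson's group `T` to helper21, the part on Thompson's group `F` to helper46.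
-/

set_option autoImplicit false

namespace Pool.Agent.Results.MP_59dd5b_al.FullGroups

open Pool.Agent.Helper29.PA Pool.Agent.ZT

theorem result
    -- a directed system of groups `G i` with free subgroups of finite index, and its colimit `Γ`
    (I : Type) [Preorder I] [IsDirectedOrder I] [Nonempty I] (G : I → Type) [∀ i, Group (G i)]
    (f : ∀ i j, i ≤ j → G i →* G j) (Γ : Type) [Group Γ] (g : ∀ i, G i →* Γ)
    (hff : ∀ i j k (h : i ≤ j) (h' : j ≤ k) x, f j k h' (f i j h x) = f i k (h.trans h') x)
    (hgf : ∀ i j (h : i ≤ j) x, g j (f i j h x) = g i x)
    (hsur : ∀ x, ∃ i y, g i y = x)
    (hker : ∀ i y, g i y = 1 → ∃ j, ∃ h : i ≤ j, f i j h y = 1)
    (hG : ∀ i, ∃ (A : Type) (F : Subgroup (G i)), F.FiniteIndex ∧ Nonempty (F ≃* FreeGroup A))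
    -- an action of `Γ` on a compact space
    (X : Type) [TopologicalSpace X] [CompactSpace X] [MulAction Γ X] [ContinuousConstSMul Γ X] :
    List.TFAE [
      -- (1)
      ∀ (n : ℕ) (C : ∀ (G : Type) [Group G], Prop), ExtClass C → C (AG Γ X n),
      -- (2)
      ∀ U : Set X, IsClopen U → U.Nonempty → ∃ m : Set X → ENNReal, m ∅ = 0 ∧
        (∀ V W : Set X, IsClopen V → IsClopen W → Disjoint V W → m (V ∪ W) = m V + m W) ∧
        (∀ (g : Γ) (V : Set X), IsClopen V → m ((fun x => g • x) ⁻¹' V) = m V) ∧
        m U ≠ 0 ∧ m U ≠ ⊤,
      -- (3)
      ∀ (n : ℕ) (a b c : AG Γ X n), Thom a b c → a = 1 ∧ b = 1 ∧ c = 1,
      -- (4)
      ∀ (n : ℕ) (a b : AG Γ X n), ThF a b → a * b = b * a] :=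
  compact_dichotomy I G f Γ g hff hgf hsur hker hG X

end Pool.Agent.Results.MP_59dd5b_al.FullGroups
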