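import Mathlib
import Pool.Agent.Helper29.PA.Defs
import Pool.Agent.FS.Defs
import Pool.Agent.FS.MainP
import Pool.Agent.FS.Trees
import Pool.Agent.FS.MinMain
import Pool.Agent.FS.Frag

/-!
# The fibered Farrell-Jones conjecture in A-theory and groups with finitely many singular germs

The class of the groups which satisfy the conjecture (with finite wreath products) contains the
finite groups and `ℤ`, is closed under isomorphism, subgroups, products and free products of two
groups, overgroups of finite index and directed colimits, and contains a group `G` if it contains
a group `Q` and the preimages of the cyclic subgroups of `Q` under a homomorphism `G → Q`. Let `C`
be such a class, `H` a subgroup of a group `G` of homeomorphisms of a Hausdorff space `X`, and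
`Full H` the group of the permutations of `X` which agree near each point with an element of `H`.
A point `x` is singular if some `g` in `G` does not agree near `x` with any element of `H`.
`result` shows that `G` is in `C` if `Full H` is in `C`, each element of `H` which fixes a singular
point is the identity near it, each element of `G` agrees near all but finitely many points with
elements of `H`, and each singular point `x` has, for each finite subset `E` of `G`, arbitrarily
small clopen neighbourhoods `V` such that `g V = f V` for each `g` in `E` and some `f` in `Full H`,
`g V = V` if `g x = x`, and the group generated by the restrictions to `V` of the elements of `E`
which fix `x` is in `C`.

Proof. It suffices to consider a subgroup of `G` generated by a finite set `T`. Choose points `x c`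
in the classes of the singular points of `T` and of their images, elements `θ c a` of `G` which map
`x c` to the other orbits of `Full H` in its class, and finitely many elements `e` of `G` which fix
`x c`. Let `V c` be small clopen neighbourhoods of the `x c` as above. Let `Γ c` be the group
generated by the restrictions to `V c` of the elements `e`, and `κ c a` elements of `Full H` such
that `κ c a * θ c a` preserves `V c`. Let `K c` be the free product of `Γ c` and of the free group
on the indices `a`; it acts on `X` with support in `V c`, the letter `a` by the restriction of
`κ c a * θ c a`. Let `F` be the semidirect product of `Full H` and of the graph product of copies
`f K c`, one for each translate of the pair `(c, V c)` by an element `f` of `Full H`, where copies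
with disjoint translates commute. The group `F` acts on `X`. It is in `C`: the preimage of a cyclic
subgroup of `Full H` in `F` is treated by retractions onto finitely many factors, along the tree of
an amalgamated product. If `V' c` is contained in `V c`, the restriction of an element `e` to `V c`
is the product of its restriction to `V' c` and of an element of `Full H`, and this gives a
homomorphism from `F` to the group `F'` of the sets `V' c`. The elements of `T` are in the image of
`F`. An element of `F` becomes over small sets `V' c` a product of an element of `Full H` and of
elements of pairwise commuting copies, each of which is the conjugate of an element of `Γ c` by
letters; such a product is trivial if it acts trivially on `X`. So the group generated by `T` is a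
subgroup of the colimit of the groups `F`.

Cases, proved in the imported files: compact spaces, locally finite groups `H` and groups `G` whose
groups of germs at the singular points are in `C` (`FS.mainG`); groups generated by `H` and by
groups of homeomorphisms directed towards points (`FS.directed_mem`), for instance on the ends of
spherically homogeneous trees (`FS.tree_mem`, `FS.directed_tree_mem`); the topological full groups
of aperiodic essentially minimal homeomorphisms (`FS.topFull_mem`); the topological full groups of
the fragmentations of minimal dihedral actions with finitely many reflection fixed points
(`FS.fragmentation_mem`), which contain the simple groups of intermediate growth of Nekrashevych.

The levels, the configurations, the surjectivity, directed groups and trees are due to helper46,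
the reduction to commuting copies and the full groups to helper54, the closure of `C` under the
groups `F` to helper30 and helper78, the germ groups to helper30, the injectivity and the
fragmentations to helper78, the theorem and the groups `F` to helper3; helper93 and helper94 found
gaps and shorter proofs.
-/

set_option autoImplicit false

namespace Pool.Agent.Results.MP_59dd5b_al.SingularGerms

open Pool.Agent.Helper29.PA Pool.Agent.FS

theorem result (C : ∀ (G : Type) [Group G], Prop) (hC : ExtClass C) (X : Type)
    [TopologicalSpace X] [T2Space X] (H G : Subgroup (X ≃ₜ X)) (hG : Hyp C H G)
    (hH : C (Full H)) : C G :=
  mainP hC hG hH

end Pool.Agent.Results.MP_59dd5b_al.SingularGerms
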