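import Mathlib
import Pool.Agent.Helper29.PA.Defs
import Pool.Agent.TFG.Main

/-!
# The fibered Farrell-Jones conjecture in A-theory for topological full groups

The class of the groups which satisfy the conjecture (with finite wreath products) contains the
finite groups and `ℤ`, is closed under isomorphism, subgroups, products and free products of two
groups, overgroups of finite index and directed colimits, and contains a group `G` if it contains
a group `Q` and the preimages of the cyclic subgroups of `Q` under a homomorphism `G → Q`.
`result` shows that each such class `C` contains the topological full group of every minimal
homeomorphism `φ` of a compact Hausdorff totally disconnected space `X`. These groups contain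
finitely generated infinite simple amenable groups (Juschenko, Monod).

Proof. Fix a point `x₀`. A small clopen neighbourhood `U` of `x₀` divides the orbits of `φ` into
words, the segments between visits to `U`. A track is a continuous choice of a letter in each word.
Each track `t` gives an element `U_t` of the topological full group, which moves the chosen letters
to the next word; disjoint tracks commute. Let `F_U` be the semidirect product of the
right-angled Artin group of the tracks (disjoint tracks commute) with the group `P_U` of the
elements of the topological full group which preserve the words; `P_U` is locally finite, and so
`F_U` is in `C`. If `U'` is contained in `U`, then `U_t` is the product of the element of the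
restricted track with an element of `P_U'`, and this gives a homomorphism from `F_U` to `F_U'`.
The topological full group is the colimit of the groups `F_U`: an element `g` is in the image of
`F_U` if `U` is small, since the junctions which `g` crosses belong to the words of `U`; and an
element of `F_U` becomes, over a small set `U'`, a product of powers of pairwise disjoint tracks
`φ ^ k (U')` with `|k| <= D` and of an element of `P_U'`, and such products act faithfully.

The segments, the closure of `C` under the semidirect products and the surjectivity are due to
helper30, the faithfulness of disjoint tracks, the local finiteness and the topological part to
helper46.
-/

set_option autoImplicit false

namespace Pool.Agent.Results.MP_59dd5b_al.TopologicalFullGroups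

open Pool.Agent.Helper29.BA Pool.Agent.Helper29.PA Pool.Agent.TFG

theorem result (C : ∀ (G : Type) [Group G], Prop) (hC : ExtClass C) (X : Type)
    [TopologicalSpace X] [CompactSpace X] [T2Space X] [TotallyDisconnectedSpace X] (φ : X ≃ₜ X)
    (hφ : ∀ x, Dense {y | ∃ n : ℤ, (φ ^ n) x = y}) : C (topFull φ) :=
  main hC X φ hφ

end Pool.Agent.Results.MP_59dd5b_al.TopologicalFullGroups
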