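import Mathlib
import Pool.Agent.Helper29.PA.Defs
import Pool.Agent.ZT.TreeMain
import Pool.Agent.ZT.ThomF
import Pool.Agent.ZT.Growth
import Pool.Agent.ZT.Graph

/-!
# The fibered Farrell-Jones conjecture in A-theory and the permutations of forests

The class of the groups which satisfy the conjecture (with finite wreath products) contains the
finite groups and `ℤ`, is closed under isomorphism, subgroups, products and free products of two
groups, overgroups of finite index and directed colimits, and contains a group `G` if it contains
a group `Q` and the preimages of the cyclic subgroups of `Q` under a homomorphism `G → Q`.
`ExtClass C` says that `C` is a class with these properties.

Let `T` be a forest whose vertices have at most `d` neighbours, and let `WD T` be the group of all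
permutations `g` of the vertices such that the distance from `v` to `g v` is bounded. By `result`
each such class `C` contains `WD T`, and every group which acts with bounded displacement over `T`,
unless there is an obvious obstruction: a paradoxical set of vertices, or, equivalently, an image of
Thompson's group `T` in `WD T`, or, equivalently, a copy of Thompson's group `F` in `WD T`.

Proved in the imported files: no group which contains Thompson's group `F` is in every class `C`
(`ZT.extClass_noF`); the condition on the sets of vertices holds if the balls around some vertex of
each component grow subexponentially (`ZT.not_paradoxG_of_subexp`). The case that `T` is a line
contains: the permutations `g` of a set such that `g x = S ^ n x` with bounded `n`, for a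
permutation `S` (`ZT.mem_BF`); the topological full groups of all homeomorphisms of compact spaces
(`ZT.mem_topFull_of_BF`); the groups acting on the vertices of a graph by bounded displacements if
each component has a point such that the spheres around it have at most `k` points
(`ZT.mem_of_spheres`); the groups of permutations moving each point by a word of bounded length in
two involutions (`ZT.mem_of_involutions`).

Proof. The classes of the groups without a noncommutative solution of the two relations of
Thompson's group `F`, and without a nontrivial solution of the six relations of Thompson's group
`T`, have the properties of `C`. A paradoxical set of vertices carries a binary tree of subsets, on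
which `T` acts. If no set of vertices is paradoxical, there are by Hall's theorem finite sets with
small boundary inside each nonempty set `U` of vertices; hence there is a finitely additive
`m : {sets} → [0, ∞]` with `m U = 1`, invariant under `WD T`. The words along the paths of the
forest embed the group `G` in the group `FB` of the permutations of `S × F` of the form
`(x, h) ↦ (x, c (h x) h)` with `c : S → F` of finite range, where `F` is a free group acting on a
set `S`; this becomes the full group of `F` acting on the compact space `X` of the ultrafilters.
Let `κ` be a locally constant function on `X`. The type of a point of `X × F` consists of the values
of `κ` at the point and at its neighbours. A state is a set of tokens, each the graph of a bijection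
of the set of the points of one type and a set of particles. A step moves all particles with a given
value of `κ` after the step by a generator of `F`. The group `D κ` consists of the pairs of a
permutation `q` and of the product, in the right-angled Artin group of the letters (sets of pairs of
positions and particles, commuting if the sets of particles are disjoint), of the letters of a
sequence of steps from the identity to `q`. The full group is the directed colimit of the groups
`D κ`: a product of steps which gives the identity is over a fine `κ` a product of closed paths of
sets of particles in a tree, hence trivial. The group `D κ` depends only on the set of the types,
since restricting the states to a union of orbits which contains all types is injective and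
surjective. So `X` can be replaced by a tower of sets: the types of positive finite measure, with
multiplicities which satisfy the flow equations, give a finite set with bijections between some of
its subsets, and where a bijection is missing one attaches a copy of a branch of the tree, labelled
like the branch of a point of the previous set, which exists since the measure is infinite there. At
each step the group of local cocycles grows only by a locally finite group and by finitely supported
functions with values in `F`.

Theorem D (the groups `D κ`, their transition maps, the colimit, the tower of sets) and the part on
Thompson's group `F` are due to helper46, the dichotomy and the part on Thompson's group `T` to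
helper21, the part on Hall's theorem and the measures, and the first case (a line), to helper54,
the forests to helper78, with parts by helper41 (kernels), helper30 (right-angled Artin groups),
helper6 (flows), helper29 (growth) and helper3.
-/

set_option autoImplicit false

namespace Pool.Agent.Results.MP_59dd5b_al.TreeDichotomy

open Pool.Agent.Helper29.PA Pool.Agent.ZT

theorem result {V : Type} (T : SimpleGraph V) (hT : T.IsAcyclic) (d : ℕ)
    (hd : ∀ v, (T.neighborSet v).encard ≤ d) :
    List.TFAE [
      -- (1)
      ∀ C : (∀ (G : Type) [Group G], Prop), ExtClass C → C (WD T),
      -- (2)
      ∀ (G S : Type) [Group G] [MulAction G S] [FaithfulSMul G S] (ρ : S → V) (k : ℕ),
        (∀ (s : S) (v : V), {t ∈ MulAction.orbit G s | ρ t = v}.encard ≤ k) →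
        (∀ g : G, ∃ N : ℕ, ∀ s : S, T.edist (ρ s) (ρ (g • s)) ≤ N) →
        ∀ C : (∀ (G : Type) [Group G], Prop), ExtClass C → C G,
      -- (3)
      ∀ U : Set V, U.Nonempty → ¬ ∃ (N : ℕ) (a b : V → V), Set.MapsTo a U U ∧ Set.MapsTo b U U ∧
        Set.InjOn a U ∧ Set.InjOn b U ∧ Disjoint (a '' U) (b '' U) ∧
        ∀ u ∈ U, T.edist u (a u) ≤ N ∧ T.edist u (b u) ≤ N,
      -- (4)
      ∀ a b c : WD T, Thom a b c → a = 1 ∧ b = 1 ∧ c = 1,
      -- (5)
      ∀ a b : WD T, ThF a b → a * b = b * a] := by
  have h := tree_dichotomy T hT d hd
  tfae_have 1 ↔ 2 := h.out 0 1
  tfae_have 1 ↔ 3 := h.out 0 2
  tfae_have 1 ↔ 4 := h.out 0 3
  tfae_have 1 → 5 := fun h1 => noF_of_forall h1
  tfae_have 5 → 4 := fun h5 => noT_of_noF h5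
  tfae_finish

end Pool.Agent.Results.MP_59dd5b_al.TreeDichotomy
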